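import Pool.Agent.L0h32.UX.Stm

/-!
# UX MOV: all moves preserve the invariants
-/

set_option autoImplicit false

namespace Pool.Agent.L0h75.UX

open Relation
open Pool.Agent.L0h32.UX
open Pool.Agent.H630R2.LA (LimAut Sym Cfg Step init initTape WS lrel bitS ix nr Ann keep bit_ann)

variable {A : Type} {h : ℕ} {rel : A → Fin (2 ^ h) → Fin (2 ^ h) → Bool} {p0 : Fin (2 ^ h)}
  {facc : Fin (2 ^ h) → Bool} {K : ℕ} {W : ℕ → ℕ → Fin (2 ^ h) → Fin (2 ^ h) → ℕ}
  {w : List A} {t : ℕ}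

lemma ix_of_lt {i : ℕ} (hi : i < 2 ^ h) : ix h i = ⟨i, hi⟩ :=
  Fin.ext (Nat.mod_eq_of_lt hi)

/-- division with remainder -/
lemma dm (t B : ℕ) (hB : 0 < B) : t / B * B + t % B = t ∧ t % B < B :=
  ⟨by rw [Nat.mul_comm]; exact Nat.div_add_mod t B, Nat.mod_lt t hB⟩

/-- the flag and the index -/
lemma first_k {x : Wr} (hx : WOK h rel p0 w t x) :
    x.k < 2 ^ h ∧ ((x.first = true ∧ t < 2 ^ h ∧ x.k = t) ∨
      (x.first = false ∧ ∃ j, (j + 1) * 2 ^ h = t / 2 ^ h * 2 ^ h ∧ j * 2 ^ h + 2 ^ h + x.k = t)) := by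
  obtain ⟨h1, h2, -⟩ := hx
  obtain ⟨h3, h4⟩ := dm t (2 ^ h) (Nat.two_pow_pos h)
  refine ⟨by omega, ?_⟩
  by_cases ht : t < 2 ^ h
  · left
    exact ⟨by rw [h1]; exact decide_eq_true ht, ht, by rw [h2]; exact Nat.mod_eq_of_lt ht⟩
  · right
    refine ⟨by rw [h1]; exact decide_eq_false ht, ?_⟩
    have h5 : 1 ≤ t / 2 ^ h := (Nat.one_le_div_iff (Nat.two_pow_pos h)).2 (by omega)
    obtain ⟨j, hj⟩ : ∃ j, t / 2 ^ h = j + 1 := ⟨t / 2 ^ h - 1, by omega⟩
    have h6 : (j + 1) * 2 ^ h = j * 2 ^ h + 2 ^ h := by rw [Nat.add_mul, Nat.one_mul]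
    refine ⟨j, by rw [hj], ?_⟩
    rw [hj] at h3
    omega

lemma EE_le {m : Mem} (hm : MOK h rel p0 facc K W w t m) : EE h m.x m.fin ≤ t + 1 := by
  obtain ⟨h1, h2⟩ := first_k hm.1
  unfold EE
  rcases h2 with ⟨h3, h4, h5⟩ | ⟨h3, j, h4, h5⟩
  · rw [h3]
    simp only [if_true]
    split_ifs <;> omega
  · rw [h3]
    simp only [Bool.false_eq_true, if_false]
    split_ifs <;> omega

lemma LL_le {m : Mem} : Ly h m ≤ EE h m.x m.fin := by
  show LL h m.x m.fin ≤ EE h m.x m.fin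
  unfold LL EE
  by_cases hf : m.fin = true
  · rw [if_pos hf, if_pos hf]
    split_ifs <;> omega
  · rw [if_neg hf, if_neg hf]
    by_cases hk : m.x.k + 1 < 2 ^ h <;> by_cases hg : m.x.first = true
    · rw [if_pos ⟨hg, hk⟩, if_pos hk, if_pos hg]
      omega
    · rw [if_neg (fun hh => hg hh.1), if_pos hk, if_neg hg]
      omega
    · rw [if_neg (fun hh => hk hh.2), if_neg hk]
    · rw [if_neg (fun hh => hk hh.2), if_neg hk]

lemma bt_add {m : Mem} (hm : MOK h rel p0 facc K W w t m) :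
    bt h t m + EE h m.x m.fin = t + 1 := by
  have := EE_le hm
  unfold bt
  omega

/-- the beginning is the beginning of the word -/
lemma bt_bas {m : Mem} (hm : MOK h rel p0 facc K W w t m) (hf : bas m.x m.fin = true) :
    bt h t m = 0 := by
  obtain ⟨h1, h2⟩ := first_k hm.1
  unfold bas at hf
  rw [Bool.and_eq_true] at hf
  unfold bt EE
  rw [hf.1, hf.2]
  simp only [if_true]
  rcases h2 with ⟨h3, h4, h5⟩ | ⟨h3, j, h4, h5⟩
  · omega
  · rw [hf.2] at h3
    exact absurd h3 (by decide)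

/-- the base block is annotated -/
lemma bt_blk {m : Mem} (hm : MOK h rel p0 facc K W w t m) (hf : bas m.x m.fin = false) :
    ∃ j, bt h t m = j * 2 ^ h ∧ (m.fin = true → bt h t m + 2 ^ h ≤ t) := by
  obtain ⟨h1, h2⟩ := first_k hm.1
  have hE := bt_add hm
  unfold bas at hf
  unfold EE at hE
  rcases h2 with ⟨h3, h4, h5⟩ | ⟨h3, j, h4, h5⟩
  · rw [h3, Bool.and_true] at hf
    rw [h3, hf] at hE
    simp only [if_true, Bool.false_eq_true, if_false] at hE
    refine ⟨0, ?_, ?_⟩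
    · rw [Nat.zero_mul]
      split_ifs at hE <;> omega
    · intro h6
      rw [hf] at h6
      exact absurd h6 (by decide)
  · rw [h3] at hE
    simp only [Bool.false_eq_true, if_false] at hE
    have h6 : (j + 1) * 2 ^ h = j * 2 ^ h + 2 ^ h := by rw [Nat.add_mul, Nat.one_mul]
    rcases Bool.eq_false_or_eq_true m.fin with hg | hg
    · rw [hg] at hE
      simp only [if_true] at hE
      exact ⟨j, by omega, fun _ => by omega⟩
    · rw [hg] at hE
      simp only [Bool.false_eq_true, if_false] at hE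
      by_cases hk : m.x.k + 1 < 2 ^ h
      · rw [if_pos hk] at hE
        refine ⟨j, by omega, ?_⟩
        intro h7
        rw [hg] at h7
        exact absurd h7 (by decide)
      · rw [if_neg hk] at hE
        refine ⟨j + 1, by omega, ?_⟩
        intro h7
        rw [hg] at h7
        exact absurd h7 (by decide)

/-- MOV: all moves preserve the invariants -/
theorem t_MOV : S_HOP → S_YES → S_EXI → S_MOV := by
  intro HH HY HX A h rel p0 facc K W w t τ htw hA s s' x x' b d hs hT hd1 hd2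
  have hB := Nat.two_pow_pos h
  obtain ⟨σ, hσ⟩ : ∃ σ, σ = τ x := ⟨_, rfl⟩
  rw [← hσ] at hT ⊢
  cases hT with
  | wrL x a => exact hs.elim
  | wrR x => exact hs.elim
  | hop m m' _ hh =>
    obtain ⟨hm, hx⟩ := hs
    have := hd1 rfl
    exact ⟨rfl, by omega, Or.inr ⟨HH A h rel p0 facc K W w t m m' hm hh, by omega⟩⟩
  | back m _ =>
    obtain ⟨hm, hx⟩ := hs
    have := hd2 rfl
    exact ⟨rfl, by omega, Or.inr ⟨hm, by omega⟩⟩
  | ask m _ hl hy hz =>
    obtain ⟨hm, hx⟩ := hs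
    have := hd1 rfl
    have hE := bt_add hm
    exact ⟨rfl, by omega, Or.inr ⟨hm, hl, hy, hz, le_rfl, by omega⟩⟩
  | aL m i _ =>
    obtain ⟨hm, hl, hy, hz, hi, hx⟩ := hs
    have := hd2 rfl
    have hE := bt_add hm
    exact ⟨rfl, by omega, Or.inr ⟨hm, hl, hy, hz, by omega, by omega⟩⟩
  | aF m _ hf =>
    obtain ⟨hm, hl, hy, hz, hi, hx⟩ := hs
    have := hd2 rfl
    have hE := bt_add hm
    refine ⟨rfl, by omega, Or.inr ⟨hm, hl, hy, hz, by omega, by omega, ?_⟩⟩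
    rw [bt_bas hm hf]
    rfl
  | aC m i _ hf hi hb =>
    obtain ⟨hm, hl, hy, hz, hi', hx⟩ := hs
    have := hd2 rfl
    have hE := bt_add hm
    refine ⟨rfl, by omega, Or.inr ⟨hm, hl, hy, hz, by omega, by omega, ?_⟩⟩
    obtain ⟨j, h1, h2⟩ := bt_blk hm hf
    have h4 : x = j * 2 ^ h + 1 + i := by omega
    rw [hσ, h4] at hb
    rw [h1, ix_of_lt hi]
    refine (bit_ann hA j ⟨i, hi⟩ ?_).1 hb
    show j * 2 ^ h + i < min (t + 1) w.length
    rw [lt_min_iff]
    refine ⟨by omega, ?_⟩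
    rcases Bool.eq_false_or_eq_true m.fin with hg | hg
    · have := h2 hg
      omega
    · have := hm.2.1 hg
      omega
  | bL m p i _ =>
    obtain ⟨hm, hl, hy, hz, hi, hx, hr⟩ := hs
    have := hd2 rfl
    have hE := bt_add hm
    exact ⟨rfl, by omega, Or.inr ⟨hm, hl, hy, hz, by omega, by omega, hr⟩⟩
  | b0 m p _ =>
    obtain ⟨hm, hl, hy, hz, hi, hx, hr⟩ := hs
    have := hd1 rfl
    have hE := bt_add hm
    exact ⟨rfl, by omega, Or.inr ⟨hm, hl, hy, hz, le_rfl, by omega, by omega, hr, rfl⟩⟩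
  | cS m p p' v j _ hj hlr =>
    obtain ⟨hm, hl, hy, hz, hi1, hi2, hx, hr⟩ := hs
    have := hd1 rfl
    have hE := bt_add hm
    have hL := LL_le (h := h) (m := m)
    refine ⟨rfl, by omega, Or.inr ⟨hm, hl, hy, hz, by omega, by omega, by omega, ?_⟩⟩
    have h2 : x = bt h t m + j + 1 := by omega
    obtain ⟨a, b, ha, hτ, -⟩ := hA.2 (bt h t m + j) (by
      rw [lt_min_iff]
      omega)
    rw [hσ, h2, hτ] at hlr
    exact ⟨p, v, hr, ⟨a, ha, hlr⟩, rfl⟩
  | cD m p v j _ hj hp hE' =>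
    obtain ⟨hm, hl, hy, hz, hi1, hi2, hx, hr⟩ := hs
    have := hd2 rfl
    have hE := bt_add hm
    have hx2 : x = bt h t m + m.l + 1 := by omega
    refine ⟨rfl, by omega, Or.inr ⟨?_, by omega⟩⟩
    rw [hσ, hx2]
    refine HY A h rel p0 facc K W w t τ htw hA m v hm hl hy hz ?_
    rw [← hp, ← hj]
    exact hr
  | cR m p v j _ hj hp hE' =>
    obtain ⟨hm, hl, hy, hz, hi1, hi2, hx, hr⟩ := hs
    have := hd1 rfl
    have hE := bt_add hm
    have hx2 : x = bt h t m + m.l + 1 := by omega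
    have hY : MOK h rel p0 facc K W w t (yes h rel W m v σ) := by
      rw [hσ, hx2]
      refine HY A h rel p0 facc K W w t τ htw hA m v hm hl hy hz ?_
      rw [← hp, ← hj]
      exact hr
    refine ⟨rfl, by omega, Or.inr ⟨hY, ?_, ?_⟩⟩
    · show j + 2 ≤ EE h m.x m.fin
      omega
    · show x' = bt h t m + (j + 2)
      omega
  | rS m i _ hi =>
    obtain ⟨hm, hi', hx⟩ := hs
    have := hd1 rfl
    have hE := bt_add hm
    exact ⟨rfl, by omega, Or.inr ⟨hm, by omega, by omega⟩⟩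
  | rE m i _ hi =>
    obtain ⟨hm, hi', hx⟩ := hs
    have := hd2 rfl
    have hE := bt_add hm
    exact ⟨rfl, by omega, Or.inr ⟨hm, by omega⟩⟩
  | exi m _ hf hl =>
    obtain ⟨hm, hx⟩ := hs
    have := hd1 rfl
    exact ⟨rfl, by omega, Or.inr ⟨(HX A h rel p0 facc K W w t m hm hl).1 hf, hm.2.1 hf, by omega⟩⟩
  | wrt x'' _ =>
    obtain ⟨h1, h2, h3⟩ := hs
    have := hd1 rfl
    exact ⟨rfl, by omega, Or.inl ⟨x'', rfl, rfl, by omega, by omega, h1, h2⟩⟩
  | acc m _ hf hl =>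
    obtain ⟨hm, hx⟩ := hs
    have := hd1 rfl
    exact ⟨rfl, by omega, Or.inr ⟨by omega, hm.2.2.1 hf,
      (HX A h rel p0 facc K W w t m hm hl).2 hf⟩⟩
  | fin b _ =>
    obtain ⟨h1, h2, h3⟩ := hs
    have := hd1 rfl
    exact ⟨rfl, by omega, Or.inr ⟨by omega, h2, h3⟩⟩

end Pool.Agent.L0h75.UX
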